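import Mathlib

set_option autoImplicit false

namespace Pool.Agent.Results.MP_aae45c_an.No

open Set Filter Topology
open scoped ENNReal

/-- the modular -/
noncomputable def rho (p a : ℕ → ℝ) : ℝ≥0∞ := ∑' j, ENNReal.ofReal (|a j| ^ p j)

/-- the space -/
def L (p : ℕ → ℝ) : Set (ℕ → ℝ) := {a | ∃ t : ℝ, 0 < t ∧ rho p (t • a) < ∞}

/-- closed sets of the modular topology -/
def Cl (p : ℕ → ℝ) (F : Set (L p)) : Prop :=
  ∀ (x : ℕ → L p) (y : L p), (∀ k, x k ∈ F) → Tendsto (fun k => rho p (x k - y)) atTop (𝓝 0) → y ∈ F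

theorem sm : Summable fun j : ℕ => (3 / 5 : ℝ) ^ (j + 1) :=
  (summable_nat_add_iff 1).2 (summable_geometric_of_lt_one (by norm_num) (by norm_num))

theorem bd {a : ℕ → ℝ} (h : ∀ j, |a j| ≤ 3 / 5) (j : ℕ) : ‖|a j| ^ ((j : ℝ) + 1)‖ ≤ (3 / 5) ^ (j + 1) := by
  rw [Real.norm_of_nonneg (by positivity), ← Nat.cast_succ, Real.rpow_natCast]
  exact pow_le_pow_left₀ (abs_nonneg _) (h j) _

theorem eqn {a : ℕ → ℝ} (h : ∀ j, |a j| ≤ 3 / 5) :
    rho (fun j => j + 1) a = .ofReal (∑' j : ℕ, |a j| ^ ((j : ℝ) + 1)) :=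
  (ENNReal.ofReal_tsum_of_nonneg (fun _ => by positivity) (sm.of_norm_bounded (bd h))).symm

theorem mem {a : ℕ → ℝ} (h : ∀ j, |a j| ≤ 6 / 5) : a ∈ L fun j => j + 1 := ⟨2⁻¹, by norm_num, by
  rw [eqn fun j => by rw [Pi.smul_apply, smul_eq_mul, abs_mul, abs_of_pos (by norm_num)]; linarith [h j]]
  simp⟩

theorem ev {U : Set (L fun j => j + 1)} (h : Cl _ Uᶜ) {x : ℕ → L fun j => j + 1} {y : L fun j => j + 1}
    (hy : y ∈ U) (b : ∀ k j, |(x k).1 j - y.1 j| ≤ 3 / 5) (e : ∀ j, ∀ᶠ k in atTop, (x k).1 j = y.1 j) :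
    ∀ᶠ k in atTop, x k ∈ U := by
  by_contra c
  obtain ⟨f, f1, f2⟩ := extraction_of_frequently_atTop (not_eventually.1 c)
  suffices Tendsto (fun k => rho (fun j => j + 1) ((x k).1 - y.1)) atTop (𝓝 0) from
    h (fun k => x (f k)) y f2 (this.comp f1.tendsto_atTop) hy
  simp only [fun k => eqn (a := (x k).1 - y.1) (b k)]
  simpa using ENNReal.tendsto_ofReal (tendsto_tsum_of_dominated_convergence (g := fun _ => 0) sm
    (fun j => tendsto_const_nhds.congr' ((e j).mono fun k hk => by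
      simp [hk, Real.zero_rpow (show (j : ℝ) + 1 ≠ 0 by positivity)]))
        (.of_forall fun k => bd (a := (x k).1 - y.1) (b k)))

theorem result : ∃ p : ℕ → ℝ, (∀ n, 1 ≤ p n) ∧ ∃ (x : L p) (F : Set (L p)), Cl p F ∧ x ∉ F ∧
    ¬∃ U V : Set (L p), Cl p Uᶜ ∧ Cl p Vᶜ ∧ Disjoint U V ∧ x ∈ U ∧ F ⊆ V := by
  classical
  refine ⟨fun j => j + 1, fun n => by simp, ⟨0, mem (by norm_num)⟩, {x | (∀ i, x.1 i ∈ ({0, 3 / 5, -(3 / 5), -(6 / 5)} :
    Set ℝ)) ∧ (∀ i j, i ≤ j → x.1 j = 0 → x.1 i = 0) ∧ ∃ m, x.1 m = -(6 / 5) ∧ ∀ i > m, x.1 i = 3 / 5},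
      fun x y hx t => ?_, fun ⟨_, _, m, h, _⟩ => by norm_num at h, fun ⟨U, V, u, v, d, u0, v0⟩ => ?_⟩
  · have l : ∀ k i : ℕ, ∀ r > 0, rho (fun j => j + 1) ((x k).1 - y.1) < .ofReal (r ^ ((i : ℝ) + 1)) →
        |(x k).1 i - y.1 i| < r := fun k i r r0 h => not_le.1 fun c => h.not_ge
      ((ENNReal.ofReal_le_ofReal (Real.rpow_le_rpow r0.le c (by positivity))).trans (ENNReal.le_tsum i))
    have e0 : ∀ i, ∀ r > 0, ∀ᶠ k in atTop, |(x k).1 i - y.1 i| < r := fun i r r0 =>
      (t.eventually (gt_mem_nhds (ENNReal.ofReal_pos.2 (by positivity)))).mono fun k => l k i r r0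
    have y1 : ∀ i, y.1 i ∈ ({0, 3 / 5, -(3 / 5), -(6 / 5)} : Set ℝ) := fun i =>
      (toFinite _).isClosed.mem_of_tendsto (Metric.tendsto_nhds.2 (e0 i)) (.of_forall fun k => (hx k).1 i)
    have e1 : ∀ i, ∀ᶠ k in atTop, (x k).1 i = y.1 i := fun i => (e0 i 2⁻¹ (by norm_num)).mono fun k h => by
      rw [abs_lt] at h
      rcases (hx k).1 i with a | a | a | a <;> rcases y1 i with b | b | b | b <;>
        linarith [mem_singleton_iff.1 a, mem_singleton_iff.1 b]
    have y2 : ∀ i j, i ≤ j → y.1 j = 0 → y.1 i = 0 := fun i j h c => by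
      obtain ⟨k, k1, k2⟩ := ((e1 i).and (e1 j)).exists
      exact k1 ▸ (hx k).2.1 i j h (k2.trans c)
    have e2 : ∀ᶠ k in atTop, ∃ m, (x k).1 m = -(6 / 5) ∧ y.1 m < 0 ∧ ∀ i > m, y.1 i = 3 / 5 := by
      filter_upwards [t.eventually (gt_mem_nhds one_pos)] with k hk
      obtain ⟨m, m1, m2⟩ := (hx k).2.2
      have a := fun i => abs_lt.1 (l k i 1 one_pos (by simpa using hk))
      have : y.1 m < 0 := by linarith [a m]
      refine ⟨m, m1, this, fun i hi => ?_⟩
      rcases y1 i with b | b | b | b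
      · exact absurd (y2 m i hi.le b) this.ne
      · exact b
      all_goals linarith [a i, m2 i hi, mem_singleton_iff.1 b]
    obtain ⟨_, m, -, m1, m2⟩ := e2.exists
    obtain ⟨k, ⟨n, n0, n1, n2⟩, k1⟩ := (e2.and (e1 m)).exists
    obtain rfl : m = n := le_antisymm (not_lt.1 fun h => by linarith [n2 _ h]) (not_lt.1 fun h => by linarith [m2 _ h])
    exact ⟨y1, y2, m, k1 ▸ n0, m2⟩
  let Y : ℕ → Set ℕ → L fun j => j + 1 := fun n S => ⟨fun i => if i < n then 0 else if i ∈ S then -(3 / 5) else 3 / 5,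
    mem fun i => by split_ifs <;> norm_num [abs_le]⟩
  obtain ⟨n, hn⟩ : ∃ n, ∀ S, Y n S ∈ U := by
    by_contra! c
    choose S c using c
    obtain ⟨k, hk⟩ := (ev u (x := fun n => Y n (S n)) u0 (fun k j => by simp only [Y]; split_ifs <;> norm_num [abs_le])
      fun j => (eventually_gt_atTop j).mono fun k hk => if_pos hk).exists
    exact c k hk
  let X : ℕ → Finset ℕ → L fun j => j + 1 := fun m S => ⟨fun i =>
    if i < n then 0 else if i = m then -(6 / 5) else if i ∈ S then -(3 / 5) else 3 / 5,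
    mem fun i => by split_ifs <;> norm_num [abs_le]⟩
  let Z : ℕ → Finset ℕ → ℕ → L fun j => j + 1 := fun m S k => ⟨fun i => if i < k then (X m S).1 i else 0,
    mem fun i => by simp only [X]; split_ifs <;> norm_num [abs_le]⟩
  have k : ∀ m, ∃ k > m, n ≤ m → ∀ S ∈ (Finset.range m).powerset, Z m S k ∈ V := fun m => by
    rcases lt_or_ge m n with h | h
    · exact ⟨m + 1, by simp, fun c => absurd c h.not_ge⟩
    suffices ∀ᶠ k in atTop, ∀ S ∈ (Finset.range m).powerset, Z m S k ∈ V from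
      ((eventually_gt_atTop m).and this).exists.imp fun k hk => ⟨hk.1, fun _ => hk.2⟩
    refine (eventually_all_finset _).2 fun S hS => tendsto_principal.1
      ((tendsto_add_atTop_iff_nat (m + 1)).1 (tendsto_principal.2 ?_))
    refine ev v (y := X m S) (v0 ⟨fun i => ?_, fun i j ij c => if_pos ?_, m, by simp [X, h], fun i hi => ?_⟩)
      (fun k i => ?_) fun i => (eventually_gt_atTop i).mono fun k hk => if_pos (by omega)
    · simp only [X]; split_ifs <;> simp
    · simp only [X] at c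
      split_ifs at c <;> first | omega | norm_num at c
    · simp only [X]
      rw [if_neg (by omega), if_neg hi.ne', if_neg fun c => by
        have := Finset.mem_range.1 (Finset.mem_powerset.1 hS c); omega]
    simp only [X, Z]
    split_ifs <;> first | omega | norm_num [abs_le]
  choose k k1 k2 using k
  let g := fun j => k^[j] n
  have g1 : ∀ j, g (j + 1) = k (g j) := fun j => Function.iterate_succ_apply' _ _ _
  have g2 : StrictMono g := strictMono_nat_of_lt_succ fun j => g1 j ▸ k1 _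
  have g3 : ∀ j, n ≤ g j := fun j => g2.monotone j.zero_le
  have w := (ev u (x := fun j => Z (g j) ((Finset.range (g j)).filter (· ∈ range g)) (g (j + 1)))
    (hn (range g)) (fun j i => ?_) fun i => (eventually_gt_atTop i).mono fun j hj => ?_).exists
  · obtain ⟨j, hj⟩ := w
    exact disjoint_left.1 d hj (g1 j ▸ k2 _ (g3 j) _ (Finset.mem_powerset.2 (Finset.filter_subset _ _)))
  · simp only [X, Y, Z, Finset.mem_filter, Finset.mem_range]
    by_cases c : i ∈ range g
    · obtain ⟨l, rfl⟩ := c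
      simp only [g2.lt_iff_lt, g2.injective.eq_iff, mem_range_self, and_true, if_true]
      split_ifs <;> first | omega | norm_num [abs_le]
    have : i ≠ g j := fun e => c ⟨j, e.symm⟩
    simp only [c, this, and_false, if_false]
    split_ifs <;> norm_num [abs_le]
  have : i < g j := hj.trans_le (g2.id_le j)
  have := g2 j.lt_add_one
  simp only [X, Y, Z, Finset.mem_filter, Finset.mem_range]
  rw [if_pos (by omega), if_neg (show i ≠ g j by omega)]
  simp only [show i < g j by omega, true_and]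

end Pool.Agent.Results.MP_aae45c_an.No
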